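import Pool.Agent.Helper93_ABCT.StmtK
import Pool.Agent.Helper32_ABCT.Api2

/-!
# WVAR: the variety of the top cell (MP_a17fcb_ag)
-/

open MvPolynomial Topology

namespace PosGeom.H64

open ABCT

/-- the zero set of a homogeneous ideal is closed under negation -/
theorem aeval_neg {ι : Type} (V : PVar ι) (x : ι → ℝ)
    (h : ∀ F ∈ V.I, aeval (fun i => ((x i : ℝ) : ℂ)) F = 0) :
    ∀ F ∈ V.I, aeval (fun i => (((-x) i : ℝ) : ℂ)) F = 0 := by
  intro F hF
  have h1 := aeval_scale F (fun i => ((x i : ℝ) : ℂ)) (-1) (F.totalDegree + 1) (Nat.lt_succ_self _)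
  have h2 : (fun i => (((-x) i : ℝ) : ℂ)) = fun i => (-1 : ℂ) * ((x i : ℝ) : ℂ) := by
    funext i
    simp
  rw [h2, h1]
  refine Finset.sum_eq_zero fun m _ => ?_
  rw [h _ (V.homog F hF m), mul_zero]

theorem pvar_ext {ι : Type} {V W : PVar ι} (h : V.I = W.I) : V = W := by
  cases V
  cases W
  simp only at h
  subst h
  rfl

theorem emb0_inj (k n : ℕ) : Function.Injective (emb0 k n) := by
  intro I J h
  unfold emb0 at h
  exact Subtype.ext (Finset.map_injective _ h)

theorem emb0_mem (k n : ℕ) (I : PIdx k n) :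
    emb0 k n I ∈ (List.range n).toFinset.powersetCard k := by
  rw [Finset.mem_powersetCard]
  refine ⟨?_, ?_⟩
  · intro x hx
    unfold emb0 at hx
    rw [Finset.mem_map] at hx
    obtain ⟨y, _, rfl⟩ := hx
    simp
  · unfold emb0
    rw [Finset.card_map]
    exact I.2

theorem emb0_surj (k n : ℕ) (I : Finset ℕ) (hI : I ∈ (List.range n).toFinset.powersetCard k) :
    ∃ i, emb0 k n i = I := by
  rw [Finset.mem_powersetCard] at hI
  have hlt : ∀ m ∈ I, m < n := by
    intro m hm
    have := hI.1 hm
    simpa using this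
  refine ⟨⟨I.attachFin hlt, ?_⟩, ?_⟩
  · rw [Finset.card_attachFin]
    exact hI.2
  · unfold emb0
    ext m
    simp only [Finset.mem_map, Finset.mem_attachFin, Fin.valEmbedding_apply]
    constructor
    · rintro ⟨y, hy, rfl⟩
      exact hy
    · intro hm
      exact ⟨⟨m, hlt m hm⟩, hm, rfl⟩

/-- vanishing at the generic point is vanishing at all points -/
theorem gen_iff (S : FlatCell) {ι : Type} (emb : ι → Finset ℕ) (F : MvPolynomial ι ℂ) :
    aeval (fun i => S.P (emb i)) F = 0 ↔
      ∀ x : S.V → ℂ, aeval (fun i => S.ev x (emb i)) F = 0 := by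
  have h1 : ∀ I, S.P I = algebraMap (MvPolynomial S.V ℂ) S.F (S.ev (fun v => X v) I) := by
    intro I
    rw [map_ev]
    rfl
  have h2 : aeval (fun i => S.P (emb i)) F =
      algebraMap (MvPolynomial S.V ℂ) S.F (aeval (fun i => S.ev (fun v => X v) (emb i)) F) := by
    rw [← MvPolynomial.aeval_algebraMap_apply]
    congr 1
    congr 1
    funext i
    exact h1 _
  have h3 : ∀ x : S.V → ℂ, eval x (aeval (fun i => S.ev (fun v => X v) (emb i)) F) =
      aeval (fun i => S.ev x (emb i)) F := by
    intro x
    rw [← aeval_eq_eval, ← AlgHom.comp_apply, comp_aeval]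
    congr 2
    funext i
    have := map_ev S ((aeval x : MvPolynomial S.V ℂ →ₐ[ℂ] ℂ) : MvPolynomial S.V ℂ →+* ℂ)
      (fun v => X v) (emb i)
    have h4 : (fun v => ((aeval x : MvPolynomial S.V ℂ →ₐ[ℂ] ℂ) : MvPolynomial S.V ℂ →+* ℂ)
        (X v)) = x := by
      funext v
      simp
    rw [h4] at this
    exact this
  rw [h2, map_eq_zero_iff _ (IsFractionRing.injective (MvPolynomial S.V ℂ) S.F)]
  constructor
  · intro h x
    rw [← h3, h, map_zero]
  · intro h
    apply MvPolynomial.funext
    intro x
    rw [h3, h, map_zero]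

theorem wvar (hver : WverStmt) (hgen : KgenStmt) (hclo : KcloStmt) (hZ : ZvtxStmt) (hN : NStmt)
    (hC : ClosedStmt) (hwf : WfStmt) (hG : GgenStmt) : WvarStmt := by
  intro k n hk hkn d N b a hn
  have hkn' : k ≤ n := Nat.le_of_add_right_le hkn
  have hvalid : (Net.gen (List.range n) k).Valid := by
    refine ⟨List.nodup_range, hk, ?_⟩
    rw [List.length_range]
    exact hkn
  have hM : (Net.gen (List.range n) k).M = (List.range n).toFinset.powersetCard k := rfl
  have hF : FOk (emb0 k n) (Net.gen (List.range n) k).flat := by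
    refine ⟨emb0_inj k n, (hwf _ hvalid).1, hG _ _ hvalid, ?_, ?_⟩
    · intro I hI
      have hI' : I ∈ (List.range n).toFinset.powersetCard k := hI
      rw [Finset.mem_powersetCard] at hI'
      omega
    · intro I hI
      exact emb0_surj k n I hI
  have hvar : N.var = ABCT k n hk hkn' := by
    apply pvar_ext
    ext F
    rw [← (hgen _ _ _ hF d N b a hn).1 F, gen_iff]
    show _ ↔ F ∈ abctIdeal k n
    rw [hver k n hk hkn' F]
    have h1 := (hZ.2 (List.range n) k (rename (emb0 k n) F) hvalid)
    have h2 : ∀ g : Finset ℕ → ℂ, aeval g (rename (emb0 k n) F) =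
        aeval (fun i => g (emb0 k n i)) F := by
      intro g
      rw [aeval_rename]
      rfl
    constructor
    · intro h κ c t
      rw [← h2]
      refine h1.2 ?_ κ c t
      intro x
      rw [h2]
      exact h x
    · intro h x
      rw [← h2]
      refine h1.1 ?_ x
      intro κ c t
      rw [h2]
      exact h κ c t
  refine ⟨hvar, ?_⟩
  have hZV : (Net.gen (List.range n) k).flat.Z = ZV (List.range n) k := by
    refine hZ.1 _ _ _ (Net.IsVtx.gen _ _ hk ?_) List.nodup_range
    rw [List.length_range]
    exact hkn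
  have hcl : closure N.Z = {z | ∃ z' ∈ closure (ZV (List.range n) k),
      z = fun i => z' (emb0 k n i)} := by
    rw [(hclo _ _ _ hF d N b a hn).2.1, hZV]
  -- points of the closure are nonnegative points of the variety
  have hsub : ∀ z ∈ closure N.Z, (∀ F ∈ (ABCT k n hk hkn').I,
      aeval (fun i => ((z i : ℝ) : ℂ)) F = 0) ∧ ∀ I, 0 ≤ z I := by
    intro z hz
    rw [hcl] at hz
    obtain ⟨z', hz', rfl⟩ := hz
    obtain ⟨hX, hpos⟩ := hC _ _ hz'
    refine ⟨?_, fun I => hpos _⟩
    intro F hF'
    have hF'' : F ∈ abctIdeal k n := hF'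
    rw [hver k n hk hkn' F] at hF''
    have h3 := hX (rename (emb0 k n) F) (by
      intro κ c t
      rw [aeval_rename]
      exact hF'' κ c t)
    rw [aeval_rename] at h3
    exact h3
  have hsup : ∀ x : PIdx k n → ℝ, (∀ F ∈ (ABCT k n hk hkn').I,
      aeval (fun i => ((x i : ℝ) : ℂ)) F = 0) → (∀ I, 0 ≤ x I) → x ∈ closure N.Z := by
    intro x hx hpos
    classical
    rw [hcl]
    let z' : Finset ℕ → ℝ := fun I => if h : ∃ i, emb0 k n i = I then x h.choose else 0
    have hz' : ∀ i, z' (emb0 k n i) = x i := by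
      intro i
      have h : ∃ j, emb0 k n j = emb0 k n i := ⟨i, rfl⟩
      show (if h : ∃ j, emb0 k n j = emb0 k n i then x h.choose else 0) = x i
      rw [dif_pos h]
      congr 1
      exact emb0_inj k n h.choose_spec
    refine ⟨z', hN _ _ List.nodup_range (by rw [List.length_range]; exact hkn') z' ?_ ?_, ?_⟩
    · intro f hf
      let e : Finset ℕ → MvPolynomial (PIdx k n) ℂ :=
        fun I => if h : ∃ i, emb0 k n i = I then X h.choose else 0
      have hF' : aeval e f ∈ abctIdeal k n := by
        rw [hver k n hk hkn']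
        intro κ c t
        rw [← AlgHom.comp_apply, comp_aeval]
        have h4 : (fun I => aeval (fun I => ABCT.Q (List.range n) k κ c t (emb0 k n I)) (e I)) =
            ABCT.Q (List.range n) k κ c t := by
          funext I
          by_cases h : ∃ i, emb0 k n i = I
          · have h5 : e I = X h.choose := dif_pos h
            rw [h5, aeval_X, h.choose_spec]
          · have h5 : e I = 0 := dif_neg h
            rw [h5, map_zero]
            have h6 : I ∉ (List.range n).toFinset.powersetCard k := fun h6 =>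
              h (emb0_surj k n I h6)
            unfold ABCT.Q
            rw [if_neg h6]
        rw [h4]
        exact hf κ c t
      have h7 := hx _ hF'
      rw [← AlgHom.comp_apply, comp_aeval] at h7
      have h8 : (fun I => aeval (fun i => ((x i : ℝ) : ℂ)) (e I)) =
          fun I => ((z' I : ℝ) : ℂ) := by
        funext I
        by_cases h : ∃ i, emb0 k n i = I
        · have h5 : e I = X h.choose := dif_pos h
          have h9 : z' I = x h.choose := dif_pos h
          rw [h5, aeval_X, h9]
        · have h5 : e I = 0 := dif_neg h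
          have h9 : z' I = 0 := dif_neg h
          rw [h5, map_zero, h9, Complex.ofReal_zero]
      rw [h8] at h7
      exact h7
    · intro I
      show 0 ≤ (if h : ∃ i, emb0 k n i = I then x h.choose else 0)
      split_ifs with h
      · exact hpos _
      · exact le_refl _
    · funext i
      exact (hz' i).symm
  ext x
  constructor
  · rintro ⟨hx0, hx⟩
    rcases hx with hx | hx
    · obtain ⟨h1, h2⟩ := hsub x hx
      exact ⟨⟨hx0, h1⟩, Or.inl h2⟩
    · obtain ⟨h1, h2⟩ := hsub (-x) hx
      refine ⟨⟨hx0, ?_⟩, Or.inr fun I => ?_⟩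
      · have h3 := aeval_neg _ _ h1
        rwa [neg_neg] at h3
      · have := h2 I
        rw [Pi.neg_apply] at this
        linarith
  · rintro ⟨⟨hx0, hx⟩, h | h⟩
    · exact ⟨hx0, Or.inl (hsup x hx h)⟩
    · refine ⟨hx0, Or.inr (hsup (-x) (aeval_neg _ _ hx) fun I => ?_)⟩
      rw [Pi.neg_apply]
      linarith [h I]

end PosGeom.H64
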