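import Pool.Agent.Helper32_ABCT.Stmts2

/-!
# CVTX: one-vertex nets have gap values (MP_a17fcb_ag)
-/

open MvPolynomial

namespace ABCT.H64

open FlatCell

lemma D_eq_gap (n a b : ℕ) (hb : b ≤ n) :
    Net.D n a b = ∑ h ∈ Finset.Ico a b,
      (fun h : ℕ => if hh : h < n then (X (⟨h, hh⟩ : Fin n) : MvPolynomial (Fin n) ℕ) else 1) h := by
  unfold Net.D
  refine Finset.sum_bij' (fun h _ => h.1) (fun h hh => ⟨h, ?_⟩) ?_ ?_ ?_ ?_ ?_
  · rw [Finset.mem_Ico] at hh
    omega
  · intro h hh
    simp only [Finset.mem_filter, Finset.mem_univ, true_and] at hh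
    rw [Finset.mem_Ico]
    exact hh
  · intro h hh
    rw [Finset.mem_Ico] at hh
    simp only [Finset.mem_filter, Finset.mem_univ, true_and]
    exact hh
  · intro h hh
    rfl
  · intro h hh
    rfl
  · intro h hh
    simp

lemma vtx_gen (l : List ℕ) (r : ℕ) (h₁ : 2 ≤ r) (h₂ : r + 2 ≤ l.length) :
    VtxG l r (Net.gen l r) (fun h : ℕ => if hh : h < l.length - 2 then
      (X (⟨h, hh⟩ : Fin (l.length - 2)) : MvPolynomial (Fin (l.length - 2)) ℕ) else 1) := by
  refine ⟨?_, rfl, rfl, rfl, Or.inl ⟨Equiv.refl _, ?_⟩⟩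
  · intro I
    show (if I ∈ (Net.gen l r).M then ∏ p ∈ Net.prs l I, Net.D (l.length - 2) p.1 p.2 else 0) = _
    have hM : (Net.gen l r).M = l.toFinset.powersetCard r := rfl
    rw [hM]
    split_ifs with hI
    · refine Finset.prod_congr rfl ?_
      intro p hp
      refine D_eq_gap _ _ _ ?_
      unfold Net.prs at hp
      simp only [Finset.mem_filter, Finset.mem_product, Finset.mem_range] at hp
      omega
    · rfl
  · intro h
    simp

lemma prs_three_sub (l : List ℕ) (h : l.length = 3) (I : Finset ℕ) :
    Net.prs l I ⊆ {((0 : ℕ), (1 : ℕ))} := by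
  intro p hp
  unfold Net.prs at hp
  simp only [Finset.mem_filter, Finset.mem_product, Finset.mem_range] at hp
  rw [Finset.mem_singleton]
  have h1 : p.1 = 0 := by omega
  have h2 : p.2 = 1 := by omega
  exact Prod.ext h1 h2

lemma prod_three (l : List ℕ) (h : l.length = 3) (I : Finset ℕ) {R : Type*} [CommSemiring R]
    (g : ℕ → R) (hg : g 0 = 1) :
    ∏ p ∈ Net.prs l I, ∑ h ∈ Finset.Ico p.1 p.2, g h = 1 := by
  refine Finset.prod_eq_one ?_
  intro p hp
  have := prs_three_sub l h I hp
  rw [Finset.mem_singleton] at this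
  rw [this]
  simp [hg]

theorem cvtx : VtxGStmt := by
  intro l r S hS hl
  cases hS with
  | gen _ h₁ h₂ =>
    refine ⟨⟨_, vtx_gen l r h₁ h₂⟩, ⟨hl, h₁, h₂⟩, by omega, by omega, by omega, Or.inr ⟨h₁, h₂⟩⟩
  | black h =>
    have hc : l.toFinset.card = 3 := by rw [List.toFinset_card_of_nodup hl, h]
    refine ⟨⟨fun _ => 1, ?_, ?_, rfl, rfl, Or.inr ⟨h, inferInstanceAs (IsEmpty Empty), rfl⟩⟩, ?_,
      le_refl _, by omega, by omega, Or.inl h⟩
    · intro I
      show (if I ∈ (Net.black l.toFinset).M then (1 : MvPolynomial Empty ℕ) else 0) = _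
      have hM : (Net.black l.toFinset).M = l.toFinset.powersetCard 1 := by
        show l.toFinset.image (fun x => ({x} : Finset ℕ)) = _
        rw [Finset.powersetCard_one]
        ext J
        simp
      rw [hM]
      split_ifs with hI
      · exact (prod_three l h I _ rfl).symm
      · rfl
    · show l.toFinset.image (fun x => ({x} : Finset ℕ)) = _
      rw [Finset.powersetCard_one]
      ext J
      simp
    · show l.toFinset.Nonempty
      rw [← Finset.card_pos]
      omega
  | white h =>
    have hc : l.toFinset.card = 3 := by rw [List.toFinset_card_of_nodup hl, h]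
    have hM : (Net.white l.toFinset).M = l.toFinset.powersetCard 2 := by
      show l.toFinset.image (fun x => l.toFinset.erase x) = _
      ext J
      simp only [Finset.mem_image, Finset.mem_powersetCard]
      constructor
      · rintro ⟨x, hx, rfl⟩
        refine ⟨Finset.erase_subset _ _, ?_⟩
        rw [Finset.card_erase_of_mem hx, hc]
      · rintro ⟨hJ, hJc⟩
        have : (l.toFinset \ J).card = 1 := by
          rw [Finset.card_sdiff_of_subset hJ, hc, hJc]
        rw [Finset.card_eq_one] at this
        obtain ⟨x, hx⟩ := this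
        have hxm : x ∈ l.toFinset \ J := by rw [hx]; simp
        rw [Finset.mem_sdiff] at hxm
        refine ⟨x, hxm.1, ?_⟩
        ext y
        rw [Finset.mem_erase]
        constructor
        · rintro ⟨hy, hyl⟩
          by_contra hyJ
          have : y ∈ l.toFinset \ J := Finset.mem_sdiff.2 ⟨hyl, hyJ⟩
          rw [hx, Finset.mem_singleton] at this
          exact hy this
        · intro hy
          refine ⟨?_, hJ hy⟩
          rintro rfl
          exact hxm.2 hy
    refine ⟨⟨fun _ => 1, ?_, hM, rfl, ?_, Or.inr ⟨h, inferInstanceAs (IsEmpty Empty), rfl⟩⟩, ?_,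
      by omega, by omega, by omega, Or.inl h⟩
    · intro I
      show (if I ∈ (Net.white l.toFinset).M then (1 : MvPolynomial Empty ℕ) else 0) = _
      rw [hM]
      split_ifs with hI
      · exact (prod_three l h I _ rfl).symm
      · rfl
    · show l.toFinset.card - 1 = 2
      omega
    · show l.toFinset.Nonempty
      rw [← Finset.card_pos]
      omega

end ABCT.H64
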